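import Pool.Agent.H70.TM.Parse
import Pool.Prelude.Def_H_3587d628

/-!
Every first-order property of square matrices of bits is decidable in polynomial time.
-/

namespace Pool.Agent.H70.TM

open Function FirstOrder FirstOrder.Language Nm

theorem eval_mono (p : Polynomial ℕ) {a b : ℕ} (h : a ≤ b) : p.eval a ≤ p.eval b := by
  rw [Polynomial.eval_eq_sum, Polynomial.eval_eq_sum]
  exact Finset.sum_le_sum (fun i _ => Nat.mul_le_mul_left _ (Nat.pow_le_pow_left h i))

/-- the property of matrices of bits defined by a sentence -/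
def MatrixProp (ψ : Language.graph.Sentence) (x : List Bool) : Prop :=
  ∃ n, x.length = n * n ∧ @Sentence.Realize _ (Fin n) (stM n x) ψ

/-- the whole program -/
def mainC (R : ℕ) (ψ : Language.graph.Sentence) : Cmd (Nm R) Fl :=
  .seq prA (.seq prB (.seq (.ite bF (ev R ψ) (.load id)) (.seq (clr cnt) (.seq (clr mat)
    (.push out bF)))))

theorem mainC_run (ψ : Language.graph.Sentence) : ∃ p : Polynomial ℕ, ∀ x : List Bool,
    ∀ r : Bool, (r = true ↔ MatrixProp ψ x) →
    ∃ (v' : Fl) (n : ℕ), n ≤ p.eval x.length ∧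
      Run (mainC (ht ψ) ψ) ⟨false, false, false⟩ (update (fun _ => []) inp (tri x)) v'
        (update (fun _ => []) out [r]) n := by
  obtain ⟨p, hp⟩ := ev_run (R := ht ψ) ψ le_rfl
  refine ⟨(5 * Polynomial.X + 2) + ((Polynomial.X + 1) * (15 * (Polynomial.X + 1) + 12) + 3) +
    (p + 2) + (2 * Polynomial.X + 2) + (2 * Polynomial.X + 2) + 1, ?_⟩
  intro x r hr
  obtain ⟨v₁, S₁, h1, h2, h3, h4⟩ := prA_run (R := ht ψ) x ⟨false, false, false⟩
    (update (fun _ => []) inp (tri x)) (update_self _ _ _)
  have hne : ∀ k : Nm (ht ψ), k ≠ inp → update (fun _ => []) inp (tri x) k = [] := by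
    intro k hk
    rw [update_of_ne hk]
  rw [hne aux (by simp), List.append_nil] at h3
  obtain ⟨v₂, S₂, J, g1, g2, g3, g4, g5, g6, g7, g8⟩ := prB_run x.reverse v₁ S₁ h3
    (by rw [h4 mat (by simp) (by simp), hne mat (by simp)])
    (by rw [h4 cnt (by simp) (by simp), hne cnt (by simp)])
    (by rw [h4 t1 (by simp) (by simp), hne t1 (by simp)])
  rw [List.length_reverse] at g1 g6 g7 g8
  rw [List.reverse_reverse] at g3
  have hempty : ∀ k : Nm (ht ψ), k ≠ mat → k ≠ cnt → S₂ k = [] := by
    intro k e1 e2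
    by_cases e3 : k = aux
    · rw [e3, g2]
    · rw [g5 k e3 e1 e2]
      by_cases e4 : k = inp
      · rw [e4, h2]
      · rw [h4 k e4 e3, hne k e4]
  -- evaluation
  have hev : ∃ v₃, RunB (.ite bF (ev (ht ψ) ψ) (.load id)) v₂ S₂ v₃ S₂ (p.eval x.length + 2) ∧
      v₃.b = r := by
    by_cases hsq : x.length = J * J
    · have hGood : Good J x 0 (default : Fin 0 → Fin J) S₂ := by
        refine ⟨g4, g3, g2, hempty t1 (by simp) (by simp), hempty t3 (by simp) (by simp),
          fun i => i.elim0, ?_⟩
        intro i _ hi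
        exact hempty _ (X_ne hi (by simp)) (X_ne hi (by simp))
      obtain ⟨v₃, q1, q2⟩ := hp J x hsq (default : Fin 0 → Fin J) (default : Empty → Fin J)
        v₂ S₂ hGood
      refine ⟨v₃, (RunB.ite_t (p := bF) (by simpa [bF] using g7.mpr hsq) q1).mono ?_, ?_⟩
      · have := eval_mono p g6
        omega
      · rw [Bool.eq_iff_iff, q2, hr]
        unfold MatrixProp
        constructor
        · intro hh
          exact ⟨J, hsq, hh⟩
        · rintro ⟨n, hn, hh⟩
          have : n = J := g8 n hn
          subst this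
          exact hh
    · refine ⟨v₂, (RunB.ite_f (p := bF) (by
        rw [← Bool.not_eq_true]
        exact fun hh => hsq (g7.mp hh)) RunB.load).mono (by omega), ?_⟩
      rw [Bool.eq_iff_iff, g7, hr]
      unfold MatrixProp
      constructor
      · intro hh
        exact absurd hh hsq
      · rintro ⟨n, hn, hh⟩
        have : n = J := g8 n hn
        rw [← this]
        exact hn
  obtain ⟨v₃, q1, q2⟩ := hev
  obtain ⟨v₄, S₄, r1, r2, _, r4, r5⟩ := clr_run (k := (cnt : Nm (ht ψ))) _ v₃ S₂ g4
  obtain ⟨v₅, S₅, s1, s2, _, s4, s5⟩ := clr_run (k := (mat : Nm (ht ψ))) x v₄ S₄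
    (by rw [r5 mat (by simp), g3])
  have hlast : RunB (K := Nm (ht ψ)) (.push out bF) v₅ S₅ v₅ (update S₅ out (bF v₅ :: S₅ out)) 1 :=
    ⟨1, le_rfl, .push out bF v₅ S₅⟩
  have hS : update S₅ out (bF v₅ :: S₅ out) = update (fun _ => []) out [r] := by
    funext k
    by_cases e0 : k = out
    · subst e0
      rw [update_self, update_self, s5 out (by simp), r5 out (by simp),
        hempty out (by simp) (by simp)]
      have : bF v₅ = r := by
        unfold bF
        rw [s2, r2, q2]
      rw [this]
    · rw [update_of_ne e0, update_of_ne e0]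
      by_cases e1 : k = mat
      · rw [e1, s4]
      · rw [s5 k e1]
        by_cases e2 : k = cnt
        · rw [e2, r4]
        · rw [r5 k e2, hempty k e1 e2]
  rw [hS] at hlast
  obtain ⟨n, hn, hrun⟩ := RunB.seq h1 (RunB.seq g1 (RunB.seq q1 (RunB.seq r1
    (RunB.seq s1 hlast))))
  refine ⟨v₅, n, hn.trans ?_, hrun⟩
  simp only [Polynomial.eval_add, Polynomial.eval_mul, Polynomial.eval_X,
    Polynomial.eval_ofNat, Polynomial.eval_one, List.length_replicate]
  omega

theorem bitEncode_eq_tri (x : List Bool) :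
    (N487b59b3.toEncoding (α := List Bool)).encode x = tri x := by
  induction x with
  | nil => rfl
  | cons b x ih =>
    have h : (N487b59b3.toEncoding (α := List Bool)).encode (b :: x) =
      [true, b, false] ++ (N487b59b3.toEncoding (α := List Bool)).encode x := rfl
    rw [h, ih]
    rfl

open Classical in
/-- every first-order property of matrices of bits is in `P` -/
theorem matrixProp_mem_P (ψ : Language.graph.Sentence) :
    (fun x : List Bool => decide (MatrixProp ψ x)) ∈ N68a2faeb.P := by
  obtain ⟨p, hp⟩ := mainC_run ψ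
  refine polyTime_of_run (mainC (ht ψ) ψ) inp out ⟨false, false, false⟩ _ _ _ p ?_
  intro x
  obtain ⟨v', n, hn, hrun⟩ := hp x (decide (MatrixProp ψ x)) (by simp)
  refine ⟨v', n, hn.trans (eval_mono p ?_), ?_⟩
  · rw [bitEncode_eq_tri, tri_length]
    omega
  · rw [bitEncode_eq_tri]
    exact hrun

end Pool.Agent.H70.TM
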