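import Mathlib

/-!
A small structured programming language over Boolean stacks, compiled to Mathlib's
multi-stack Turing machines (`Turing.TM2`), with exact step counts.
-/

namespace Pool.Agent.H70.TM

open Turing Function

/-- programs over Boolean stacks indexed by `K` with finite memory `σ` -/
inductive Cmd (K σ : Type) : Type
  | push (k : K) (f : σ → Bool) : Cmd K σ
  | pop (k : K) (f : σ → Option Bool → σ) : Cmd K σ
  | load (f : σ → σ) : Cmd K σ
  | seq (c₁ c₂ : Cmd K σ) : Cmd K σ
  | ite (p : σ → Bool) (c₁ c₂ : Cmd K σ) : Cmd K σ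
  | wh (p : σ → Bool) (c : Cmd K σ) : Cmd K σ

variable {K σ : Type}

/-- big-step semantics with the number of machine steps -/
inductive Run [DecidableEq K] :
    Cmd K σ → σ → (K → List Bool) → σ → (K → List Bool) → ℕ → Prop
  | push (k : K) (f : σ → Bool) (v : σ) (S : K → List Bool) :
      Run (.push k f) v S v (update S k (f v :: S k)) 1
  | pop (k : K) (f : σ → Option Bool → σ) (v : σ) (S : K → List Bool) :
      Run (.pop k f) v S (f v (S k).head?) (update S k (S k).tail) 1
  | load (f : σ → σ) (v : σ) (S : K → List Bool) : Run (.load f) v S (f v) S 1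
  | seq {c₁ c₂ : Cmd K σ} {v v' v'' : σ} {S S' S'' : K → List Bool} {n m : ℕ} :
      Run c₁ v S v' S' n → Run c₂ v' S' v'' S'' m → Run (.seq c₁ c₂) v S v'' S'' (n + m)
  | ite_true {p : σ → Bool} {c₁ c₂ : Cmd K σ} {v v' : σ} {S S' : K → List Bool} {n : ℕ} :
      p v = true → Run c₁ v S v' S' n → Run (.ite p c₁ c₂) v S v' S' (n + 1)
  | ite_false {p : σ → Bool} {c₁ c₂ : Cmd K σ} {v v' : σ} {S S' : K → List Bool} {n : ℕ} :
      p v = false → Run c₂ v S v' S' n → Run (.ite p c₁ c₂) v S v' S' (n + 1)
  | wh_false {p : σ → Bool} {c : Cmd K σ} {v : σ} {S : K → List Bool} :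
      p v = false → Run (.wh p c) v S v S 1
  | wh_true {p : σ → Bool} {c : Cmd K σ} {v v' v'' : σ} {S S' S'' : K → List Bool} {n m : ℕ} :
      p v = true → Run c v S v' S' n → Run (.wh p c) v' S' v'' S'' m →
      Run (.wh p c) v S v'' S'' (n + m + 1)

/-- labels of the compiled program -/
def Lab : Cmd K σ → Type
  | .push _ _ => Unit
  | .pop _ _ => Unit
  | .load _ => Unit
  | .seq c₁ c₂ => Lab c₁ ⊕ Lab c₂
  | .ite _ c₁ c₂ => Option (Lab c₁ ⊕ Lab c₂)
  | .wh _ c => Option (Lab c)

instance labFintype : (c : Cmd K σ) → Fintype (Lab c)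
  | .push _ _ => inferInstanceAs (Fintype Unit)
  | .pop _ _ => inferInstanceAs (Fintype Unit)
  | .load _ => inferInstanceAs (Fintype Unit)
  | .seq c₁ c₂ =>
    haveI := labFintype c₁
    haveI := labFintype c₂
    inferInstanceAs (Fintype (Lab c₁ ⊕ Lab c₂))
  | .ite _ c₁ c₂ =>
    haveI := labFintype c₁
    haveI := labFintype c₂
    inferInstanceAs (Fintype (Option (Lab c₁ ⊕ Lab c₂)))
  | .wh _ c =>
    haveI := labFintype c
    inferInstanceAs (Fintype (Option (Lab c)))

/-- entry label -/
def entry : (c : Cmd K σ) → Lab c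
  | .push _ _ => ()
  | .pop _ _ => ()
  | .load _ => ()
  | .seq c₁ _ => Sum.inl (entry c₁)
  | .ite _ _ _ => none
  | .wh _ _ => none

/-- compilation to TM2 statements -/
def comp {Λ : Type} : (c : Cmd K σ) → (Lab c → Λ) → Λ → Lab c →
    TM2.Stmt (fun _ : K => Bool) Λ σ
  | .push k f, _, nx, _ => .push k f (.goto fun _ => nx)
  | .pop k f, _, nx, _ => .pop k f (.goto fun _ => nx)
  | .load f, _, nx, _ => .load f (.goto fun _ => nx)
  | .seq c₁ c₂, e, _, .inl l => comp c₁ (fun l => e (.inl l)) (e (.inr (entry c₂))) l
  | .seq _ c₂, e, nx, .inr l => comp c₂ (fun l => e (.inr l)) nx l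
  | .ite p c₁ c₂, e, _, none =>
    .branch p (.goto fun _ => e (some (.inl (entry c₁))))
      (.goto fun _ => e (some (.inr (entry c₂))))
  | .ite _ c₁ _, e, nx, some (.inl l) => comp c₁ (fun l => e (some (.inl l))) nx l
  | .ite _ _ c₂, e, nx, some (.inr l) => comp c₂ (fun l => e (some (.inr l))) nx l
  | .wh p c, e, nx, none =>
    .branch p (.goto fun _ => e (some (entry c))) (.goto fun _ => nx)
  | .wh _ c, e, _, some l => comp c (fun l => e (some l)) (e none) l

section sound

variable [DecidableEq K]

/-- iterated steps -/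
abbrev steps {Λ : Type} (M : Λ → TM2.Stmt (fun _ : K => Bool) Λ σ) (n : ℕ)
    (a : TM2.Cfg (fun _ : K => Bool) Λ σ) : Option (TM2.Cfg (fun _ : K => Bool) Λ σ) :=
  (flip bind (TM2.step M))^[n] (some a)

theorem steps_add {Λ : Type} {M : Λ → TM2.Stmt (fun _ : K => Bool) Λ σ} {n m : ℕ}
    {a b c : TM2.Cfg (fun _ : K => Bool) Λ σ} (h1 : steps M n a = some b)
    (h2 : steps M m b = some c) : steps M (n + m) a = some c := by
  unfold steps at *
  rw [Nat.add_comm, Function.iterate_add_apply, h1, h2]

theorem steps_one {Λ : Type} {M : Λ → TM2.Stmt (fun _ : K => Bool) Λ σ}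
    {a b : TM2.Cfg (fun _ : K => Bool) Λ σ} (h : TM2.step M a = some b) :
    steps M 1 a = some b := by
  unfold steps
  simp only [Function.iterate_one, flip]
  exact h

theorem run_steps {c : Cmd K σ} {v v' : σ} {S S' : K → List Bool} {n : ℕ}
    (h : Run c v S v' S' n) : ∀ {Λ : Type} (M : Λ → TM2.Stmt (fun _ : K => Bool) Λ σ)
      (e : Lab c → Λ) (nx : Λ), (∀ l, M (e l) = comp c e nx l) →
      steps M n ⟨some (e (entry c)), v, S⟩ = some ⟨some nx, v', S'⟩ := by
  induction h with
  | push k f v S =>
    intro Λ M e nx hM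
    refine steps_one ?_
    rw [TM2.step, hM]
    rfl
  | pop k f v S =>
    intro Λ M e nx hM
    refine steps_one ?_
    rw [TM2.step, hM]
    rfl
  | load f v S =>
    intro Λ M e nx hM
    refine steps_one ?_
    rw [TM2.step, hM]
    rfl
  | @seq c₁ c₂ v v' v'' S S' S'' n m h1 h2 ih1 ih2 =>
    intro Λ M e nx hM
    have e1 := ih1 M (fun l => e (.inl l)) (e (.inr (entry c₂))) (fun l => by
      rw [hM]; rfl)
    have e2 := ih2 M (fun l => e (.inr l)) nx (fun l => by
      rw [hM]; rfl)
    exact steps_add e1 e2
  | @ite_true p c₁ c₂ v v' S S' n hp h1 ih1 =>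
    intro Λ M e nx hM
    have e0 : steps M 1 ⟨some (e (entry (.ite p c₁ c₂))), v, S⟩ =
        some ⟨some (e (some (.inl (entry c₁)))), v, S⟩ := by
      refine steps_one ?_
      rw [TM2.step, hM]
      simp [entry, comp, TM2.stepAux, hp]
    have e1 := ih1 M (fun l => e (some (.inl l))) nx (fun l => by
      rw [hM]; rfl)
    rw [Nat.add_comm]
    exact steps_add e0 e1
  | @ite_false p c₁ c₂ v v' S S' n hp h1 ih1 =>
    intro Λ M e nx hM
    have e0 : steps M 1 ⟨some (e (entry (.ite p c₁ c₂))), v, S⟩ =
        some ⟨some (e (some (.inr (entry c₂)))), v, S⟩ := by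
      refine steps_one ?_
      rw [TM2.step, hM]
      simp [entry, comp, TM2.stepAux, hp]
    have e1 := ih1 M (fun l => e (some (.inr l))) nx (fun l => by
      rw [hM]; rfl)
    rw [Nat.add_comm]
    exact steps_add e0 e1
  | @wh_false p c v S hp =>
    intro Λ M e nx hM
    refine steps_one ?_
    rw [TM2.step, hM]
    simp [entry, comp, TM2.stepAux, hp]
  | @wh_true p c v v' v'' S S' S'' n m hp h1 h2 ih1 ih2 =>
    intro Λ M e nx hM
    have e0 : steps M 1 ⟨some (e (entry (.wh p c))), v, S⟩ =
        some ⟨some (e (some (entry c))), v, S⟩ := by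
      refine steps_one ?_
      rw [TM2.step, hM]
      simp [entry, comp, TM2.stepAux, hp]
    have e1 := ih1 M (fun l => e (some l)) (e none) (fun l => by
      rw [hM]; rfl)
    have e2 := ih2 M e nx hM
    have : n + m + 1 = 1 + (n + m) := by omega
    rw [this]
    exact steps_add e0 (steps_add e1 e2)

end sound

/-- the bundled machine running `c` and then resetting the memory and halting -/
def machine [DecidableEq K] [Fintype K] [Fintype σ] (c : Cmd K σ) (i o : K) (init : σ) :
    FinTM2 where
  K := K
  k₀ := i
  k₁ := o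
  Γ := fun _ => Bool
  Λ := Option (Lab c)
  main := some (entry c)
  ΛFin := inferInstance
  σ := σ
  initialState := init
  Γk₀Fin := inferInstanceAs (Fintype Bool)
  m
    | none => .load (fun _ => init) .halt
    | some l => comp c some none l

theorem initList_machine [DecidableEq K] [Fintype K] [Fintype σ] (c : Cmd K σ) (i o : K)
    (init : σ) (x : List Bool) : initList (machine c i o init) x =
      ⟨some (some (entry c)), init, update (fun _ => []) i x⟩ := by
  unfold initList
  congr 1
  refine funext (fun (k : K) => ?_)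
  by_cases hk : k = i
  · subst hk
    exact (dif_pos (rfl : k = (machine c k o init).k₀)).trans
      (Function.update_self k x (fun _ => ([] : List Bool))).symm
  · exact (dif_neg (hk : ¬ (k = (machine c i o init).k₀))).trans
      (Function.update_of_ne (β := fun _ : K => List Bool) hk x (fun _ => [])).symm

theorem haltList_machine [DecidableEq K] [Fintype K] [Fintype σ] (c : Cmd K σ) (i o : K)
    (init : σ) (x : List Bool) : haltList (machine c i o init) x =
      ⟨none, init, update (fun _ => []) o x⟩ := by
  unfold haltList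
  congr 1
  refine funext (fun (k : K) => ?_)
  by_cases hk : k = o
  · subst hk
    exact (dif_pos (rfl : k = (machine c i k init).k₁)).trans
      (Function.update_self k x (fun _ => ([] : List Bool))).symm
  · exact (dif_neg (hk : ¬ (k = (machine c i o init).k₁))).trans
      (Function.update_of_ne (β := fun _ : K => List Bool) hk x (fun _ => [])).symm

/-- a program deciding a function in polynomial time gives a `TM2ComputableInPolyTime` -/
theorem polyTime_of_run [DecidableEq K] [Fintype K] [Fintype σ] (c : Cmd K σ) (i o : K)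
    (init : σ) {α β : Type} (ea : α → List Bool) (eb : β → List Bool) (f : α → β)
    (p : Polynomial ℕ)
    (h : ∀ a, ∃ v' n, n ≤ p.eval (ea a).length ∧
      Run c init (update (fun _ => []) i (ea a)) v' (update (fun _ => []) o (eb (f a))) n) :
    Nonempty (TM2ComputableInPolyTime ea eb f) := by
  choose v' n hn using h
  refine ⟨{
    tm := machine c i o init
    inputAlphabet := Equiv.refl Bool
    outputAlphabet := Equiv.refl Bool
    time := p + 1
    outputsFun := fun a => ⟨⟨n a + 1, ?_⟩, ?_⟩ }⟩
  · have hsteps := run_steps (hn a).2 (machine c i o init).m some none (fun _ => rfl)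
    have hmap : List.map (Equiv.refl Bool).invFun (ea a) = ea a := List.map_id' _
    have hmap' : List.map (Equiv.refl Bool).invFun (eb (f a)) = eb (f a) := List.map_id' _
    have hinit := Eq.trans (congrArg (initList (machine c i o init)) hmap)
      (initList_machine c i o init (ea a))
    have hhalt := Eq.trans (congrArg (haltList (machine c i o init)) hmap')
      (haltList_machine c i o init (eb (f a)))
    have hlast : steps (machine c i o init).m 1
        ⟨some none, v' a, update (fun _ => []) o (eb (f a))⟩ =
        some ⟨none, init, update (fun _ => []) o (eb (f a))⟩ :=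
      steps_one rfl
    have := steps_add hsteps hlast
    exact (congrArg (fun x => (flip bind (TM2.step (machine c i o init).m))^[n a + 1]
      (some x)) hinit).trans (this.trans (congrArg some hhalt).symm)
  · have := (hn a).1
    simp only [Polynomial.eval_add, Polynomial.eval_one]
    omega

end Pool.Agent.H70.TM
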