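import Pool.Agent.H70.TM.Loops

/-!
Programs for the atomic steps of first-order model checking on a matrix of bits.
-/

namespace Pool.Agent.H70.TM

open Function

/-- names of the stacks -/
inductive Nm (R : ℕ) : Type
  | inp | out | mat | aux | cnt | t1 | t3 | junk
  | var (i : Fin R)
  deriving DecidableEq, Fintype

/-- the stack of variable `i` -/
def X (R i : ℕ) : Nm R := if h : i < R then .var ⟨i, h⟩ else .junk

theorem X_eq {R i : ℕ} (h : i < R) : X R i = .var ⟨i, h⟩ := dif_pos h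

theorem X_inj {R i j : ℕ} (hi : i < R) (hj : j < R) (h : X R i = X R j) : i = j := by
  rw [X_eq hi, X_eq hj] at h
  injection h with h
  injection h

variable {R : ℕ}

open Nm

/-- move one bit from `mat` to `aux` -/
def B0 : Cmd (Nm R) Fl := .seq (pp mat) (pu aux)

theorem B0_run {v : Fl} {S : Nm R → List Bool} {x : Bool} {l : List Bool}
    (h : S mat = x :: l) : ∃ v' S', RunB B0 v S v' S' 2 ∧ v'.b = v.b ∧ S' mat = l ∧
      S' aux = x :: S aux ∧ ∀ k', k' ≠ mat → k' ≠ aux → S' k' = S k' := by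
  obtain ⟨S₁, h1, h2, h3⟩ := pp_cons (v := v) h
  obtain ⟨S₂, h4, h5, h6⟩ := pu_run (k := (aux : Nm R)) (v := ⟨v.b, true, x⟩) (S := S₁)
  refine ⟨_, S₂, RunB.seq h1 h4, rfl, ?_, ?_, ?_⟩
  · rw [h6 mat (by simp), h2]
  · rw [h5, h3 aux (by simp)]
  · intro k' hk' hk''
    rw [h6 k' hk'', h3 k' hk']

theorem skipN {k tmp : Nm R} (hk : k ≠ tmp) (hkm : k ≠ mat) (hka : k ≠ aux) (htm : tmp ≠ mat)
    (hta : tmp ≠ aux) {M : List Bool} {n p : ℕ} (hp : p + n ≤ M.length) (v : Fl)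
    (S : Nm R → List Bool) (hSk : S k = List.replicate n true) (hSt : S tmp = [])
    (hm : S mat = M.drop p) (ha : S aux = (M.take p).reverse) :
    ∃ v' S', RunB (forc k tmp B0) v S v' S' (n * 10 + 5) ∧ v'.b = v.b ∧
      S' mat = M.drop (p + n) ∧ S' aux = (M.take (p + n)).reverse ∧
      ∀ k', k' ≠ mat → k' ≠ aux → S' k' = S k' := by
  obtain ⟨v', S', h1, ⟨h2, h3, h4, h5⟩, h6, h7⟩ := forc_run hk (B := B0) (n := n) (t := 2)
    (fun j b S' => b = v.b ∧ S' mat = M.drop (p + j) ∧ S' aux = (M.take (p + j)).reverse ∧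
      ∀ k', k' ≠ mat → k' ≠ aux → k' ≠ k → k' ≠ tmp → S' k' = S k')
    (by
      rintro j b S₁ S₂ ⟨h1, h2, h3, h4⟩ h5
      refine ⟨h1, ?_, ?_, ?_⟩
      · rw [h5 mat hkm.symm htm.symm, h2]
      · rw [h5 aux hka.symm hta.symm, h3]
      · intro k' a1 a2 a3 a4
        rw [h5 k' a3 a4, h4 k' a1 a2 a3 a4])
    (by
      rintro j hj v₁ S₁ ⟨h1, h2, h3, h4⟩
      have hlt : p + j < M.length := by omega
      rw [List.drop_eq_getElem_cons hlt] at h2
      obtain ⟨v₂, S₂, g1, g2, g3, g4, g5⟩ := B0_run (v := v₁) h2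
      refine ⟨v₂, S₂, g1, ⟨g2.trans h1, g3, ?_, ?_⟩, ?_, ?_⟩
      · rw [g4, h3, ← Nat.add_assoc, List.take_succ_eq_append_getElem hlt, List.reverse_append]
        rfl
      · intro k' a1 a2 a3 a4
        rw [g5 k' a1 a2, h4 k' a1 a2 a3 a4]
      · rw [g5 k hkm hka]
      · rw [g5 tmp htm hta])
    v S hSk hSt ⟨rfl, by simpa using hm, by simpa using ha, fun _ _ _ _ _ => rfl⟩
  refine ⟨v', S', h1, h2, h3, h4, ?_⟩
  intro k' a1 a2
  by_cases e1 : k' = k
  · rw [e1, h6, hSk]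
  · by_cases e2 : k' = tmp
    · rw [e2, h7, hSt]
    · exact h5 k' a1 a2 e1 e2

theorem skipRows {k : Nm R} (hkm : k ≠ mat) (hka : k ≠ aux) (hkc : k ≠ cnt) (hk1 : k ≠ t1)
    (hk3 : k ≠ t3) {M : List Bool} {n a : ℕ} (hp : a * n ≤ M.length) (v : Fl)
    (S : Nm R → List Bool) (hSk : S k = List.replicate a true)
    (hSc : S cnt = List.replicate n true) (hS1 : S t1 = []) (hS3 : S t3 = [])
    (hm : S mat = M) (ha : S aux = []) :
    ∃ v' S', RunB (forc k t1 (forc cnt t3 B0)) v S v' S' (a * (n * 10 + 5 + 8) + 5) ∧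
      v'.b = v.b ∧ S' mat = M.drop (a * n) ∧ S' aux = (M.take (a * n)).reverse ∧
      ∀ k', k' ≠ mat → k' ≠ aux → S' k' = S k' := by
  obtain ⟨v', S', h1, ⟨h2, h3, h4, h5⟩, h6, h7⟩ := forc_run hk1 (B := forc cnt t3 B0)
    (n := a) (t := n * 10 + 5)
    (fun j b S' => b = v.b ∧ S' mat = M.drop (j * n) ∧ S' aux = (M.take (j * n)).reverse ∧
      ∀ k', k' ≠ mat → k' ≠ aux → k' ≠ k → k' ≠ t1 → S' k' = S k')
    (by
      rintro j b S₁ S₂ ⟨h1, h2, h3, h4⟩ h5
      refine ⟨h1, ?_, ?_, ?_⟩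
      · rw [h5 mat hkm.symm (by simp), h2]
      · rw [h5 aux hka.symm (by simp), h3]
      · intro k' a1 a2 a3 a4
        rw [h5 k' a3 a4, h4 k' a1 a2 a3 a4])
    (by
      rintro j hj v₁ S₁ ⟨h1, h2, h3, h4⟩
      have hle : j * n + n ≤ M.length := by
        have : (j + 1) * n ≤ a * n := Nat.mul_le_mul_right n hj
        rw [Nat.add_mul, Nat.one_mul] at this
        omega
      obtain ⟨v₂, S₂, g1, g2, g3, g4, g5⟩ := skipN (k := (cnt : Nm R)) (tmp := t3) (by simp)
        (by simp) (by simp) (by simp) (by simp) hle v₁ S₁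
        (by rw [h4 cnt (by simp) (by simp) hkc.symm (by simp), hSc])
        (by rw [h4 t3 (by simp) (by simp) hk3.symm (by simp), hS3]) h2 h3
      have e : j * n + n = (j + 1) * n := by ring
      rw [e] at g3 g4
      refine ⟨v₂, S₂, g1, ⟨g2.trans h1, g3, g4, ?_⟩, ?_, ?_⟩
      · intro k' a1 a2 a3 a4
        rw [g5 k' a1 a2, h4 k' a1 a2 a3 a4]
      · rw [g5 k hkm hka]
      · rw [g5 t1 (by simp) (by simp)])
    v S hSk hS1 ⟨rfl, by simpa using hm, by simpa using ha, fun _ _ _ _ _ => rfl⟩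
  refine ⟨v', S', h1, h2, h3, h4, ?_⟩
  intro k' a1 a2
  by_cases e1 : k' = k
  · rw [e1, h6, hSk]
  · by_cases e2 : k' = t1
    · rw [e2, h7, hS1]
    · exact h5 k' a1 a2 e1 e2

/-- read the bit in row `i`, column `j` -/
def fetch (i j : Nm R) : Cmd (Nm R) Fl :=
  .seq (forc i t1 (forc cnt t3 B0)) (.seq (forc j t1 B0)
    (.seq (.seq (pp mat) (.seq (pu mat) (.load (fun v => ⟨v.d, v.c, v.d⟩)))) (mv aux mat)))

theorem fetch_run {i j : Nm R} (him : i ≠ mat) (hia : i ≠ aux) (hic : i ≠ cnt) (hi1 : i ≠ t1)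
    (hi3 : i ≠ t3) (hjm : j ≠ mat) (hja : j ≠ aux) (hj1 : j ≠ t1)
    {M : List Bool} {n a b : ℕ} (hM : M.length = n * n) (hlt : a < n) (hltb : b < n) (v : Fl)
    (S : Nm R → List Bool) (hSi : S i = List.replicate a true)
    (hSj : S j = List.replicate b true)
    (hSc : S cnt = List.replicate n true) (hS1 : S t1 = []) (hS3 : S t3 = [])
    (hm : S mat = M) (ha : S aux = []) :
    ∃ v', RunB (fetch i j) v S v' S (14 * n * n + 40 * n + 20) ∧
      v'.b = M.getD (a * n + b) false := by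
  have hq : a * n + b < M.length := by
    have : (a + 1) * n ≤ n * n := Nat.mul_le_mul_right n hlt
    rw [Nat.add_mul, Nat.one_mul] at this
    omega
  obtain ⟨v₁, S₁, h1, h2, h3, h4, h5⟩ := skipRows him hia hic hi1 hi3 (by omega : a * n ≤ M.length)
    v S hSi hSc hS1 hS3 hm ha
  obtain ⟨v₂, S₂, g1, g2, g3, g4, g5⟩ := skipN (p := a * n) (n := b) hj1 hjm hja (by simp)
    (by simp) (by omega) v₁ S₁ (by rw [h5 j hjm hja, hSj])
    (by rw [h5 t1 (by simp) (by simp), hS1]) h3 h4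
  rw [List.drop_eq_getElem_cons hq] at g3
  obtain ⟨S₃, q1, q2, q3⟩ := pp_cons (v := v₂) g3
  obtain ⟨S₄, q4, q5, q6⟩ := pu_run (k := (mat : Nm R)) (v := ⟨v₂.b, true, M[a * n + b]⟩) (S := S₃)
  have q7 : RunB (K := Nm R) (.load (fun v : Fl => ⟨v.d, v.c, v.d⟩))
    ⟨v₂.b, true, M[a * n + b]⟩ S₄ ⟨M[a * n + b], true, M[a * n + b]⟩ S₄ 1 := RunB.load
  obtain ⟨v₅, S₅, r1, r2, r3, r4, r5⟩ := mv_run (a := (aux : Nm R)) (k := mat) (by simp)
    (M.take (a * n + b)).reverse ⟨M[a * n + b], true, M[a * n + b]⟩ S₄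
    (by rw [q6 aux (by simp), q3 aux (by simp), g4])
  have hS : S₅ = S := by
    funext k'
    by_cases e1 : k' = mat
    · rw [e1, r4, q5, q2, hm, List.reverse_reverse, ← List.drop_eq_getElem_cons hq,
        List.take_append_drop]
    · by_cases e2 : k' = aux
      · rw [e2, r3, ha]
      · rw [r5 k' e2 e1, q6 k' e1, q3 k' e1, g5 k' e1 e2, h5 k' e1 e2]
  rw [hS] at r1
  refine ⟨v₅, (RunB.seq h1 (RunB.seq g1 (RunB.seq (RunB.seq q1 (RunB.seq q4 q7)) r1))).mono ?_,
    ?_⟩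
  · rw [List.length_reverse, List.length_take]
    have e1 : a * (n * 10 + 5 + 8) ≤ n * (n * 10 + 5 + 8) :=
      Nat.mul_le_mul_right _ (by omega)
    have e2 : min (a * n + b) M.length ≤ n * n := by
      rw [← hM]
      exact Nat.min_le_right _ _
    have e3 : n * (n * 10 + 5 + 8) = 10 * (n * n) + 13 * n := by ring
    have e4 : 14 * n * n = 14 * (n * n) := by ring
    rw [e3] at e1
    rw [e4]
    omega
  · rw [r2, List.getD_eq_getElem _ _ hq]

/-- one step of the comparison -/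
def E1 : Cmd (Nm R) Fl :=
  .seq (pp t3) (.ite cF (.load id) (.load (fun v => ⟨false, v.c, v.d⟩)))

/-- compare two counters -/
def eqt (i j : Nm R) : Cmd (Nm R) Fl :=
  .seq (.load (fun v => ⟨true, v.c, v.d⟩)) (.seq (forc i t1 (one t3)) (.seq (forc j t1 E1)
    (.seq (pp t3) (.wh cF (.seq (.load (fun v => ⟨false, v.c, v.d⟩)) (pp t3))))))

theorem eqt_run {i j : Nm R} (hi1 : i ≠ t1) (hi3 : i ≠ t3) (hj1 : j ≠ t1) (hj3 : j ≠ t3)
    {a b : ℕ} (v : Fl) (S : Nm R → List Bool) (hSi : S i = List.replicate a true)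
    (hSj : S j = List.replicate b true) (hS1 : S t1 = []) (hS3 : S t3 = []) :
    ∃ v', RunB (eqt i j) v S v' S (20 * a + 20 * b + 20) ∧ v'.b = decide (a = b) := by
  have h0 : RunB (K := Nm R) (.load (fun v : Fl => ⟨true, v.c, v.d⟩)) v S ⟨true, v.c, v.d⟩ S 1 :=
    RunB.load
  obtain ⟨v₁, S₁, h1, ⟨h2, h3, h4⟩, h5, h6⟩ := forc_run hi1 (B := one t3) (n := a) (t := 1)
    (fun k b S' => b = true ∧ S' t3 = List.replicate k true ∧
      ∀ k', k' ≠ t3 → k' ≠ i → k' ≠ t1 → S' k' = S k')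
    (by
      rintro k b S₁ S₂ ⟨h1, h2, h3⟩ h5
      refine ⟨h1, ?_, ?_⟩
      · rw [h5 t3 hi3.symm (by simp), h2]
      · intro k' a1 a2 a3
        rw [h5 k' a2 a3, h3 k' a1 a2 a3])
    (by
      rintro k hk v₁ S₁ ⟨h1, h2, h3⟩
      obtain ⟨S₂, g1, g2, g3⟩ := one_run (k := (t3 : Nm R)) (v := v₁) (S := S₁)
      refine ⟨v₁, S₂, g1, ⟨h1, ?_, ?_⟩, g3 i hi3, g3 t1 (by simp)⟩
      · rw [g2, h2, List.replicate_succ]
      · intro k' a1 a2 a3
        rw [g3 k' a1, h3 k' a1 a2 a3])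
    ⟨true, v.c, v.d⟩ S hSi hS1 ⟨rfl, by simpa using hS3, fun _ _ _ _ => rfl⟩
  have hS₁ : ∀ k', k' ≠ t3 → S₁ k' = S k' := by
    intro k' a1
    by_cases e1 : k' = i
    · rw [e1, h5, hSi]
    · by_cases e2 : k' = t1
      · rw [e2, h6, hS1]
      · exact h4 k' a1 e1 e2
  obtain ⟨v₂, S₂, g1, ⟨g2, g3, g4⟩, g5, g6⟩ := forc_run hj1 (B := E1) (n := b) (t := 3)
    (fun k b S' => b = decide (k ≤ a) ∧ S' t3 = List.replicate (a - k) true ∧
      ∀ k', k' ≠ t3 → k' ≠ j → k' ≠ t1 → S' k' = S k')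
    (by
      rintro k b S₁ S₂ ⟨h1, h2, h3⟩ h5
      refine ⟨h1, ?_, ?_⟩
      · rw [h5 t3 hj3.symm (by simp), h2]
      · intro k' a1 a2 a3
        rw [h5 k' a2 a3, h3 k' a1 a2 a3])
    (by
      rintro k hk v₁ S₁ ⟨h1, h2, h3⟩
      obtain ⟨v₂, S₂, g1, g2, g3, g4, g5⟩ := pp_rep (v := v₁) h2
      by_cases hlt : 0 < a - k
      · refine ⟨v₂, S₂, (RunB.seq g1 (RunB.ite_t (p := cF) (by simp [cF, g3, hlt])
          RunB.load)).mono (by omega), ⟨?_, ?_, ?_⟩, g5 j hj3, g5 t1 (by simp)⟩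
        · rw [g2, h1]
          have e1 : k ≤ a := by omega
          have e2 : k + 1 ≤ a := by omega
          simp [e1, e2]
        · rw [g4]
          congr 1
        · intro k' a1 a2 a3
          rw [g5 k' a1, h3 k' a1 a2 a3]
      · refine ⟨⟨false, v₂.c, v₂.d⟩, S₂, (RunB.seq g1 (RunB.ite_f (p := cF)
          (by simp [cF, g3, hlt]) RunB.load)).mono (by omega), ⟨?_, ?_, ?_⟩, g5 j hj3,
          g5 t1 (by simp)⟩
        · have e2 : ¬ (k + 1 ≤ a) := by omega
          simp [e2]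
        · rw [g4]
          congr 1
        · intro k' a1 a2 a3
          rw [g5 k' a1, h3 k' a1 a2 a3])
    v₁ S₁ (by rw [hS₁ j hj3, hSj]) (by rw [hS₁ t1 (by simp), hS1])
    ⟨by rw [h2]; simp, by simpa using h3, fun k' a1 _ _ => hS₁ k' a1⟩
  have hS₂ : ∀ k', k' ≠ t3 → S₂ k' = S k' := by
    intro k' a1
    by_cases e1 : k' = j
    · rw [e1, g5, hSj]
    · by_cases e2 : k' = t1
      · rw [e2, g6, hS1]
      · exact g4 k' a1 e1 e2
  obtain ⟨v₃, S₃, q1, q2, q3, q4, q5⟩ := pp_rep (v := v₂) g3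
  obtain ⟨v₄, S₄, r1, _, _, r4, r5, r6⟩ := wh_iter (K := Nm R) cF
    (.seq (.load (fun v => ⟨false, v.c, v.d⟩)) (pp t3))
    (fun k v S' => k ≤ a - b ∧ v.c = decide (0 < k) ∧ S' t3 = List.replicate (k - 1) true ∧
      v.b = (decide (b ≤ a) && decide (k = a - b)) ∧ ∀ k', k' ≠ t3 → S' k' = S k') 2
    (by
      rintro k v S' ⟨a1, a2, a3, a4, a5⟩
      refine ⟨by simpa [cF] using a2, ?_⟩
      have e0 : RunB (K := Nm R) (.load (fun v : Fl => ⟨false, v.c, v.d⟩)) v S'
        ⟨false, v.c, v.d⟩ S' 1 := RunB.load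
      obtain ⟨v₄, S₄, r1, r2, r3, r4, r5⟩ := pp_rep (v := ⟨false, v.c, v.d⟩) (j := k)
        (by simpa using a3)
      refine ⟨v₄, S₄, (RunB.seq e0 r1).mono (by omega), by omega, r3, r4, ?_, ?_⟩
      · rw [r2]
        have : k ≠ a - b := by omega
        simp [this]
      · intro k' hk'
        rw [r5 k' hk', a5 k' hk'])
    (by
      rintro v S' ⟨_, a2, _⟩
      simpa [cF] using a2)
    (a - b) v₃ S₃ ⟨le_rfl, q3, q4, by rw [q2, g2]; simp, fun k' hk' => by
      rw [q5 k' hk', hS₂ k' hk']⟩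
  have hS : S₄ = S := by
    funext k'
    by_cases e1 : k' = t3
    · rw [e1, r4, hS3]
      rfl
    · exact r6 k' e1
  rw [hS] at r1
  refine ⟨v₄, (RunB.seq h0 (RunB.seq h1 (RunB.seq g1 (RunB.seq q1 r1)))).mono ?_, ?_⟩
  · have : (a - b) * (2 + 1) ≤ a * 3 := Nat.mul_le_mul_right _ (Nat.sub_le _ _)
    omega
  · rw [r5]
    by_cases e1 : a = b
    · subst e1
      simp
    · by_cases e2 : b ≤ a
      · have e3 : ¬ (0 = a - b) := by omega
        simp [e1, e3]
      · simp [e1, e2]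

/-- universal quantification over the counter `x` -/
def fa (x : Nm R) (E : Cmd (Nm R) Fl) : Cmd (Nm R) Fl :=
  .seq (forc cnt t1 (one x)) (.seq (.load (fun v => ⟨true, v.c, v.d⟩)) (.seq (pp x)
    (.wh cF (.seq E (.ite bF (pp x) (clr x))))))

theorem fa_run {x : Nm R} (hxc : x ≠ cnt) (hx1 : x ≠ t1) {E : Cmd (Nm R) Fl} {n tE : ℕ}
    {P : ℕ → Prop} (v : Fl) (S : Nm R → List Bool) (hSx : S x = [])
    (hSc : S cnt = List.replicate n true) (hS1 : S t1 = [])
    (hE : ∀ y, y < n → ∀ (v : Fl) (S' : Nm R → List Bool), S' x = List.replicate y true →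
      (∀ k', k' ≠ x → S' k' = S k') → ∃ v', RunB E v S' v' S' tE ∧ (v'.b = true ↔ P y)) :
    ∃ v', RunB (fa x E) v S v' S (n * (tE + 2 * n + 20) + 20) ∧
      (v'.b = true ↔ ∀ y, y < n → P y) := by
  obtain ⟨v₁, S₁, h1, ⟨h3, h4⟩, h5, h6⟩ := forc_run (k := (cnt : Nm R)) (tmp := t1) (by simp)
    (B := one x) (n := n) (t := 1)
    (fun k _ S' => S' x = List.replicate k true ∧
      ∀ k', k' ≠ x → k' ≠ cnt → k' ≠ t1 → S' k' = S k')
    (by
      rintro k b S₁ S₂ ⟨h2, h3⟩ h5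
      refine ⟨?_, ?_⟩
      · rw [h5 x hxc hx1, h2]
      · intro k' a1 a2 a3
        rw [h5 k' a2 a3, h3 k' a1 a2 a3])
    (by
      rintro k hk v₁ S₁ ⟨h2, h3⟩
      obtain ⟨S₂, g1, g2, g3⟩ := one_run (k := x) (v := v₁) (S := S₁)
      refine ⟨v₁, S₂, g1, ⟨?_, ?_⟩, g3 cnt hxc.symm, g3 t1 hx1.symm⟩
      · rw [g2, h2, List.replicate_succ]
      · intro k' a1 a2 a3
        rw [g3 k' a1, h3 k' a1 a2 a3])
    v S hSc hS1 ⟨by simpa using hSx, fun _ _ _ _ => rfl⟩
  have hS₁ : ∀ k', k' ≠ x → S₁ k' = S k' := by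
    intro k' a1
    by_cases e1 : k' = cnt
    · rw [e1, h5, hSc]
    · by_cases e2 : k' = t1
      · rw [e2, h6, hS1]
      · exact h4 k' a1 e1 e2
  have h7 : RunB (K := Nm R) (.load (fun v : Fl => ⟨true, v.c, v.d⟩)) v₁ S₁ ⟨true, v₁.c, v₁.d⟩
    S₁ 1 := RunB.load
  -- the loop
  have hloop : ∀ j, j < n → ∀ (v : Fl) (S' : Nm R → List Bool), v.c = true →
      S' x = List.replicate j true → (∀ k', k' ≠ x → S' k' = S k') →
      ∃ v' S'', RunB (.wh cF (.seq E (.ite bF (pp x) (clr x)))) v S' v' S''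
        ((j + 1) * (tE + 2 * n + 5) + 1) ∧ S'' x = [] ∧ (∀ k', k' ≠ x → S'' k' = S k') ∧
        (v'.b = true ↔ ∀ y, y ≤ j → P y) := by
    intro j
    induction j with
    | zero =>
      intro hj v S' hc hx hoth
      obtain ⟨v', g1, g2⟩ := hE 0 hj v S' hx hoth
      by_cases hP : P 0
      · obtain ⟨v'', S'', g3, g4, g5, g6, g7⟩ := pp_rep (v := v') hx
        refine ⟨v'', S'', (RunB.wh_t (p := cF) hc (RunB.seq g1 (RunB.ite_t (p := bF)
          (by simpa [bF] using g2.mpr hP) g3)) (RunB.wh_f (by simp [cF, g5]))).mono ?_,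
          by simpa using g6, fun k' hk' => by rw [g7 k' hk', hoth k' hk'], ?_⟩
        · ring_nf
          omega
        · rw [g4]
          constructor
          · intro _ y hy
            have : y = 0 := by omega
            rwa [this]
          · intro _
            exact g2.mpr hP
      · have hb : v'.b = false := by
          rw [← Bool.not_eq_true]
          exact fun hh => hP (g2.mp hh)
        obtain ⟨v'', S'', g3, g4, g5, g6, g7⟩ := clr_run (k := x) _ v' S' hx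
        refine ⟨v'', S'', (RunB.wh_t (p := cF) hc (RunB.seq g1 (RunB.ite_f (p := bF)
          (by simpa [bF] using hb) g3)) (RunB.wh_f (by simp [cF, g5]))).mono ?_,
          g6, fun k' hk' => by rw [g7 k' hk', hoth k' hk'], ?_⟩
        · simp only [List.length_replicate]
          ring_nf
          omega
        · rw [g4, hb]
          constructor
          · intro hh
            exact absurd hh (by simp)
          · intro hh
            exact absurd (hh 0 le_rfl) hP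
    | succ j ih =>
      intro hj v S' hc hx hoth
      obtain ⟨v', g1, g2⟩ := hE (j + 1) hj v S' hx hoth
      by_cases hP : P (j + 1)
      · obtain ⟨v'', S'', g3, g4, g5, g6, g7⟩ := pp_rep (v := v') hx
        obtain ⟨v₃, S₃, q1, q2, q3, q4⟩ := ih (by omega) v'' S'' (by rw [g5]; simp)
          (by simpa using g6) (fun k' hk' => by rw [g7 k' hk', hoth k' hk'])
        refine ⟨v₃, S₃, (RunB.wh_t (p := cF) hc (RunB.seq g1 (RunB.ite_t (p := bF)
          (by simpa [bF] using g2.mpr hP) g3)) q1).mono ?_, q2, q3, ?_⟩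
        · ring_nf
          omega
        · rw [q4]
          constructor
          · intro hh y hy
            by_cases e : y = j + 1
            · rwa [e]
            · exact hh y (by omega)
          · intro hh y hy
            exact hh y (by omega)
      · have hb : v'.b = false := by
          rw [← Bool.not_eq_true]
          exact fun hh => hP (g2.mp hh)
        obtain ⟨v'', S'', g3, g4, g5, g6, g7⟩ := clr_run (k := x) _ v' S' hx
        refine ⟨v'', S'', (RunB.wh_t (p := cF) hc (RunB.seq g1 (RunB.ite_f (p := bF)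
          (by simpa [bF] using hb) g3)) (RunB.wh_f (by simp [cF, g5]))).mono ?_,
          g6, fun k' hk' => by rw [g7 k' hk', hoth k' hk'], ?_⟩
        · simp only [List.length_replicate]
          have e1 : (j + 1 + 1) * (tE + 2 * n + 5) =
            (j + 1) * (tE + 2 * n + 5) + (tE + 2 * n + 5) := by ring
          rw [e1]
          have : 0 ≤ (j + 1) * (tE + 2 * n + 5) := Nat.zero_le _
          omega
        · rw [g4, hb]
          constructor
          · intro hh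
            exact absurd hh (by simp)
          · intro hh
            exact absurd (hh (j + 1) le_rfl) hP
  obtain ⟨v₂, S₂, g1, g2, g3, g4, g5⟩ := pp_rep (v := ⟨true, v₁.c, v₁.d⟩) h3
  by_cases hn : n = 0
  · subst hn
    have hS : S₂ = S := by
      funext k'
      by_cases e1 : k' = x
      · rw [e1, g4, hSx]
        rfl
      · rw [g5 k' e1, hS₁ k' e1]
    rw [hS] at g1
    refine ⟨v₂, (RunB.seq h1 (RunB.seq h7 (RunB.seq g1 (RunB.wh_f (by simp [cF, g3]))))).mono
      (by omega), ?_⟩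
    rw [g2]
    simp
  · obtain ⟨v₃, S₃, q1, q2, q3, q4⟩ := hloop (n - 1) (by omega) v₂ S₂
      (by rw [g3]; simp; omega) g4 (fun k' hk' => by rw [g5 k' hk', hS₁ k' hk'])
    have hS : S₃ = S := by
      funext k'
      by_cases e1 : k' = x
      · rw [e1, q2, hSx]
      · exact q3 k' e1
    rw [hS] at q1
    refine ⟨v₃, (RunB.seq h1 (RunB.seq h7 (RunB.seq g1 q1))).mono ?_, ?_⟩
    · have e1 : n - 1 + 1 = n := by omega
      rw [e1]
      have e2 : n * (tE + 2 * n + 20) = n * (tE + 2 * n + 5) + n * 15 := by ring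
      rw [e2]
      omega
    · rw [q4]
      constructor
      · intro hh y hy
        exact hh y (by omega)
      · intro hh y hy
        exact hh y (by omega)

end Pool.Agent.H70.TM
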