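import Pool.Agent.H70.TM.Cmd

/-!
Bounded-time runs and the basic loops on unary counters.
-/

namespace Pool.Agent.H70.TM

open Function

/-- finite memory: a result flag, a control flag, a data bit -/
structure Fl where
  b : Bool
  c : Bool
  d : Bool
  deriving DecidableEq, Fintype

section

variable {K : Type} [DecidableEq K]

/-- run in at most `t` steps -/
def RunB {σ : Type} (c : Cmd K σ) (v : σ) (S : K → List Bool) (v' : σ) (S' : K → List Bool)
    (t : ℕ) : Prop := ∃ n, n ≤ t ∧ Run c v S v' S' n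

variable {σ : Type} {c c₁ c₂ : Cmd K σ} {v v' v'' : σ} {S S' S'' : K → List Bool} {t t₁ t₂ : ℕ}

theorem RunB.mono (h : RunB c v S v' S' t₁) (ht : t₁ ≤ t₂) : RunB c v S v' S' t₂ := by
  obtain ⟨n, hn, hr⟩ := h
  exact ⟨n, hn.trans ht, hr⟩

theorem RunB.seq (h₁ : RunB c₁ v S v' S' t₁) (h₂ : RunB c₂ v' S' v'' S'' t₂) :
    RunB (.seq c₁ c₂) v S v'' S'' (t₁ + t₂) := by
  obtain ⟨n, hn, hr⟩ := h₁
  obtain ⟨m, hm, hr'⟩ := h₂
  exact ⟨n + m, by omega, .seq hr hr'⟩

theorem RunB.ite_t {p : σ → Bool} (hp : p v = true) (h : RunB c₁ v S v' S' t) :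
    RunB (.ite p c₁ c₂) v S v' S' (t + 1) := by
  obtain ⟨n, hn, hr⟩ := h
  exact ⟨n + 1, by omega, .ite_true hp hr⟩

theorem RunB.ite_f {p : σ → Bool} (hp : p v = false) (h : RunB c₂ v S v' S' t) :
    RunB (.ite p c₁ c₂) v S v' S' (t + 1) := by
  obtain ⟨n, hn, hr⟩ := h
  exact ⟨n + 1, by omega, .ite_false hp hr⟩

theorem RunB.wh_f {p : σ → Bool} (hp : p v = false) : RunB (.wh p c) v S v S 1 :=
  ⟨1, le_rfl, .wh_false hp⟩

theorem RunB.wh_t {p : σ → Bool} (hp : p v = true) (h₁ : RunB c v S v' S' t₁)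
    (h₂ : RunB (.wh p c) v' S' v'' S'' t₂) : RunB (.wh p c) v S v'' S'' (t₁ + t₂ + 1) := by
  obtain ⟨n, hn, hr⟩ := h₁
  obtain ⟨m, hm, hr'⟩ := h₂
  exact ⟨n + m + 1, by omega, .wh_true hp hr hr'⟩

theorem RunB.load {f : σ → σ} : RunB (.load f) v S (f v) S 1 := ⟨1, le_rfl, .load f v S⟩

/-- iteration of a while loop with an exact count -/
theorem wh_iter (p : σ → Bool) (c : Cmd K σ) (I : ℕ → σ → (K → List Bool) → Prop) (t : ℕ)
    (hstep : ∀ j v S, I (j + 1) v S → p v = true ∧ ∃ v' S', RunB c v S v' S' t ∧ I j v' S')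
    (hend : ∀ v S, I 0 v S → p v = false) :
    ∀ j v S, I j v S → ∃ v' S', RunB (.wh p c) v S v' S' (j * (t + 1) + 1) ∧ I 0 v' S' := by
  intro j
  induction j with
  | zero =>
    intro v S h
    exact ⟨v, S, (RunB.wh_f (hend v S h)).mono (by omega), h⟩
  | succ j ih =>
    intro v S h
    obtain ⟨hp, v', S', hr, hI⟩ := hstep j v S h
    obtain ⟨v'', S'', hr', hI'⟩ := ih v' S' hI
    exact ⟨v'', S'', (RunB.wh_t hp hr hr').mono (by ring_nf; omega), hI'⟩

/-- pop into the data bit, recording success -/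
def pp (k : K) : Cmd K Fl := .pop k (fun v x => ⟨v.b, x.isSome, x.getD v.d⟩)

/-- push the data bit -/
def pu (k : K) : Cmd K Fl := .push k (fun v => v.d)

/-- push a one -/
def one (k : K) : Cmd K Fl := .push k (fun _ => true)

def cF (v : Fl) : Bool := v.c

def bF (v : Fl) : Bool := v.b

theorem pp_cons {k : K} {v : Fl} {S : K → List Bool} {x : Bool} {l : List Bool}
    (h : S k = x :: l) : ∃ S', RunB (pp k) v S ⟨v.b, true, x⟩ S' 1 ∧ S' k = l ∧
      ∀ k', k' ≠ k → S' k' = S k' := by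
  refine ⟨update S k (S k).tail, ⟨1, le_rfl, ?_⟩, ?_, ?_⟩
  · have := Run.pop k (fun (v : Fl) x => (⟨v.b, x.isSome, x.getD v.d⟩ : Fl)) v S
    rw [h] at this ⊢
    exact this
  · rw [update_self, h]
    rfl
  · intro k' hk'
    rw [update_of_ne hk']

theorem pp_nil {k : K} {v : Fl} {S : K → List Bool} (h : S k = []) :
    ∃ S', RunB (pp k) v S ⟨v.b, false, v.d⟩ S' 1 ∧ S' k = [] ∧
      ∀ k', k' ≠ k → S' k' = S k' := by
  refine ⟨update S k (S k).tail, ⟨1, le_rfl, ?_⟩, ?_, ?_⟩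
  · have := Run.pop k (fun (v : Fl) x => (⟨v.b, x.isSome, x.getD v.d⟩ : Fl)) v S
    rw [h] at this ⊢
    exact this
  · rw [update_self, h]
    rfl
  · intro k' hk'
    rw [update_of_ne hk']

theorem pu_run {k : K} {v : Fl} {S : K → List Bool} :
    ∃ S', RunB (pu k) v S v S' 1 ∧ S' k = v.d :: S k ∧ ∀ k', k' ≠ k → S' k' = S k' := by
  refine ⟨update S k (v.d :: S k), ⟨1, le_rfl, .push k _ v S⟩, update_self _ _ _, ?_⟩
  intro k' hk'
  rw [update_of_ne hk']

theorem one_run {k : K} {v : Fl} {S : K → List Bool} :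
    ∃ S', RunB (one k) v S v S' 1 ∧ S' k = true :: S k ∧ ∀ k', k' ≠ k → S' k' = S k' := by
  refine ⟨update S k (true :: S k), ⟨1, le_rfl, .push k _ v S⟩, update_self _ _ _, ?_⟩
  intro k' hk'
  rw [update_of_ne hk']

/-- popping a unary counter -/
theorem pp_rep {k : K} {v : Fl} {S : K → List Bool} {j : ℕ} (h : S k = List.replicate j true) :
    ∃ v' S', RunB (pp k) v S v' S' 1 ∧ v'.b = v.b ∧ v'.c = decide (0 < j) ∧
      S' k = List.replicate (j - 1) true ∧ ∀ k', k' ≠ k → S' k' = S k' := by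
  cases j with
  | zero =>
    obtain ⟨S', h1, h2, h3⟩ := pp_nil (v := v) h
    exact ⟨_, S', h1, rfl, by simp, by simpa using h2, h3⟩
  | succ j =>
    rw [List.replicate_succ] at h
    obtain ⟨S', h1, h2, h3⟩ := pp_cons (v := v) h
    exact ⟨_, S', h1, rfl, by simp, by simpa using h2, h3⟩

/-- clear a stack -/
def clr (k : K) : Cmd K Fl := .seq (pp k) (.wh cF (pp k))

theorem clr_run {k : K} : ∀ (l : List Bool) (v : Fl) (S : K → List Bool), S k = l →
    ∃ v' S', RunB (clr k) v S v' S' (2 * l.length + 2) ∧ v'.b = v.b ∧ v'.c = false ∧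
      S' k = [] ∧ ∀ k', k' ≠ k → S' k' = S k' := by
  intro l v S hl
  have hloop : ∀ (l : List Bool) (v : Fl) (S : K → List Bool), S k = l → v.c = true →
      ∃ v' S', RunB (.wh cF (pp k)) v S v' S' (2 * l.length + 3) ∧ v'.b = v.b ∧
        v'.c = false ∧ S' k = [] ∧ ∀ k', k' ≠ k → S' k' = S k' := by
    intro l
    induction l with
    | nil =>
      intro v S hl hc
      obtain ⟨S', h1, h2, h3⟩ := pp_nil (v := v) hl
      exact ⟨_, S', (RunB.wh_t (p := cF) hc h1 (RunB.wh_f rfl)).mono (by simp), rfl, rfl, h2, h3⟩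
    | cons x l ih =>
      intro v S hl hc
      obtain ⟨S', h1, h2, h3⟩ := pp_cons (v := v) hl
      obtain ⟨v'', S'', h4, h5, h6, h7, h8⟩ := ih ⟨v.b, true, x⟩ S' h2 rfl
      refine ⟨v'', S'', (RunB.wh_t (p := cF) hc h1 h4).mono ?_, h5, h6, h7, ?_⟩
      · simp only [List.length_cons]
        omega
      · intro k' hk'
        rw [h8 k' hk', h3 k' hk']
  cases l with
  | nil =>
    obtain ⟨S', h1, h2, h3⟩ := pp_nil (v := v) hl
    exact ⟨_, S', (RunB.seq h1 (RunB.wh_f rfl)).mono (by simp), rfl, rfl, h2, h3⟩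
  | cons x l =>
    obtain ⟨S', h1, h2, h3⟩ := pp_cons (v := v) hl
    obtain ⟨v'', S'', h4, h5, h6, h7, h8⟩ := hloop l ⟨v.b, true, x⟩ S' h2 rfl
    refine ⟨v'', S'', (RunB.seq h1 h4).mono ?_, h5, h6, h7, ?_⟩
    · simp only [List.length_cons]
      omega
    · intro k' hk'
      rw [h8 k' hk', h3 k' hk']

/-- move a stack onto another one -/
def mv (a k : K) : Cmd K Fl := .seq (pp a) (.wh cF (.seq (pu k) (pp a)))

theorem mv_run {a k : K} (hak : a ≠ k) (l : List Bool) (v : Fl) (S : K → List Bool)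
    (hl : S a = l) : ∃ v' S', RunB (mv a k) v S v' S' (4 * l.length + 2) ∧ v'.b = v.b ∧
      S' a = [] ∧ S' k = l.reverse ++ S k ∧ ∀ k', k' ≠ a → k' ≠ k → S' k' = S k' := by
  have hloop : ∀ (l : List Bool) (v : Fl) (S : K → List Bool), S a = l → v.c = true →
      ∃ v' S', RunB (.wh cF (.seq (pu k) (pp a))) v S v' S' (4 * l.length + 4) ∧ v'.b = v.b ∧
        S' a = [] ∧ S' k = l.reverse ++ (v.d :: S k) ∧
          ∀ k', k' ≠ a → k' ≠ k → S' k' = S k' := by
    intro l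
    induction l with
    | nil =>
      intro v S hl hc
      obtain ⟨S₁, h1, h2, h3⟩ := pu_run (k := k) (v := v) (S := S)
      obtain ⟨S₂, h4, h5, h6⟩ := pp_nil (k := a) (v := v) (S := S₁) (by rw [h3 a hak, hl])
      refine ⟨_, S₂, (RunB.wh_t (p := cF) hc (RunB.seq h1 h4) (RunB.wh_f rfl)).mono (by simp),
        rfl, h5, ?_, ?_⟩
      · rw [h6 k hak.symm, h2]
        rfl
      · intro k' hk' hk''
        rw [h6 k' hk', h3 k' hk'']
    | cons x l ih =>
      intro v S hl hc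
      obtain ⟨S₁, h1, h2, h3⟩ := pu_run (k := k) (v := v) (S := S)
      obtain ⟨S₂, h4, h5, h6⟩ := pp_cons (k := a) (v := v) (S := S₁) (x := x) (l := l)
        (by rw [h3 a hak, hl])
      obtain ⟨v'', S'', h7, h8, h9, h10, h11⟩ := ih ⟨v.b, true, x⟩ S₂ h5 rfl
      refine ⟨v'', S'', (RunB.wh_t (p := cF) hc (RunB.seq h1 h4) h7).mono ?_, h8, h9, ?_, ?_⟩
      · simp only [List.length_cons]
        omega
      · rw [h10, h6 k hak.symm, h2]
        simp
      · intro k' hk' hk''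
        rw [h11 k' hk' hk'', h6 k' hk', h3 k' hk'']
  cases l with
  | nil =>
    obtain ⟨S', h1, h2, h3⟩ := pp_nil (v := v) hl
    refine ⟨_, S', (RunB.seq h1 (RunB.wh_f rfl)).mono (by simp), rfl, h2, ?_, ?_⟩
    · rw [h3 k hak.symm]
      rfl
    · intro k' hk' _
      exact h3 k' hk'
  | cons x l =>
    obtain ⟨S', h1, h2, h3⟩ := pp_cons (v := v) hl
    obtain ⟨v'', S'', h4, h5, h6, h7, h8⟩ := hloop l ⟨v.b, true, x⟩ S' h2 rfl
    refine ⟨v'', S'', (RunB.seq h1 h4).mono ?_, h5, h6, ?_, ?_⟩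
    · simp only [List.length_cons]
      omega
    · rw [h7, h3 k hak.symm]
      simp
    · intro k' hk' hk''
      rw [h8 k' hk' hk'', h3 k' hk']

/-- repeat `B` once for each unit of counter `k`, using `tmp` -/
def forc (k tmp : K) (B : Cmd K Fl) : Cmd K Fl :=
  .seq (pp k) (.seq (.wh cF (.seq (one tmp) (.seq B (pp k)))) (mv tmp k))

theorem forc_run {k tmp : K} (hk : k ≠ tmp) {B : Cmd K Fl} {n t : ℕ}
    (Inv : ℕ → Bool → (K → List Bool) → Prop)
    (hins : ∀ j b S S', Inv j b S → (∀ k', k' ≠ k → k' ≠ tmp → S' k' = S k') → Inv j b S')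
    (hB : ∀ j, j < n → ∀ (v : Fl) (S : K → List Bool), Inv j v.b S → ∃ v' S',
      RunB B v S v' S' t ∧ Inv (j + 1) v'.b S' ∧ S' k = S k ∧ S' tmp = S tmp)
    (v : Fl) (S : K → List Bool) (hSk : S k = List.replicate n true) (hSt : S tmp = [])
    (h0 : Inv 0 v.b S) :
    ∃ v' S', RunB (forc k tmp B) v S v' S' (n * (t + 8) + 5) ∧ Inv n v'.b S' ∧
      S' k = List.replicate n true ∧ S' tmp = [] := by
  obtain ⟨v₁, S₁, h1, h2, h3, h4, h5⟩ := pp_rep (v := v) hSk
  have hloop := wh_iter (K := K) cF (.seq (one tmp) (.seq B (pp k)))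
    (fun j v S => j ≤ n ∧ v.c = decide (0 < j) ∧ S k = List.replicate (j - 1) true ∧
      S tmp = List.replicate (n - j) true ∧ Inv (n - j) v.b S) (t + 2) (by
      rintro j v S ⟨hj, hc, hk1, ht1, hI⟩
      refine ⟨by simpa [cF] using hc, ?_⟩
      obtain ⟨S₂, g1, g2, g3⟩ := one_run (k := tmp) (v := v) (S := S)
      have hI2 : Inv (n - (j + 1)) v.b S₂ := hins _ _ _ _ hI (fun k' _ hk'' => g3 k' hk'')
      obtain ⟨v₃, S₃, g4, g5, g6, g7⟩ := hB (n - (j + 1)) (by omega) v S₂ hI2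
      have hk3 : S₃ k = List.replicate j true := by
        rw [g6, g3 k hk, hk1]
        rfl
      obtain ⟨v₄, S₄, g8, g9, g10, g11, g12⟩ := pp_rep (v := v₃) hk3
      refine ⟨v₄, S₄, (RunB.seq g1 (RunB.seq g4 g8)).mono (by omega), by omega, g10, g11,
        ?_, ?_⟩
      · rw [g12 tmp hk.symm, g7, g2, ht1, ← List.replicate_succ]
        congr 1
        omega
      · have e : n - (j + 1) + 1 = n - j := by omega
        rw [e] at g5
        rw [g9]
        exact hins _ _ _ _ g5 (fun k' hk' _ => g12 k' hk'))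
    (by
      rintro v S ⟨_, hc, _⟩
      simpa [cF] using hc)
    n v₁ S₁ ⟨le_rfl, h3, h4, by rw [h5 tmp hk.symm, hSt]; simp,
      by
        rw [Nat.sub_self, h2]
        exact hins _ _ _ _ h0 (fun k' hk' _ => h5 k' hk')⟩
  obtain ⟨v₂, S₂, g1, _, _, g4, g5, g6⟩ := hloop
  obtain ⟨v₃, S₃, q1, q2, q3, q4, q5⟩ := mv_run hk.symm (List.replicate n true) v₂ S₂
    (by simpa using g5)
  refine ⟨v₃, S₃, (RunB.seq h1 (RunB.seq g1 q1)).mono ?_, ?_, ?_, q3⟩
  · simp only [List.length_replicate]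
    ring_nf
    omega
  · rw [q2]
    rw [Nat.sub_zero] at g6
    exact hins _ _ _ _ g6 (fun k' hk' hk'' => q5 k' hk'' hk')
  · rw [q4, g4]
    simp

end

end Pool.Agent.H70.TM
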