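import Pool.Agent.H70.TM.Eval

/-!
Model checking a fixed first-order formula on a matrix of bits in polynomial time.
-/

namespace Pool.Agent.H70.TM

set_option linter.unusedVariables false

open Function FirstOrder FirstOrder.Language Nm

/-- the structure on `Fin n` whose relation is read off a matrix of bits -/
@[instance_reducible]
def stM (n : ℕ) (M : List Bool) : Language.graph.Structure (Fin n) where
  RelMap := fun {l} (r : graphRel l) x => match l, r, x with
    | _, .adj, x => M.getD ((x 0).val * n + (x 1).val) false = true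

/-- the variable a term denotes -/
def tvar {m : ℕ} : Language.graph.Term (Empty ⊕ Fin m) → Fin m
  | .var (.inl e) => e.elim
  | .var (.inr i) => i
  | .func f _ => isEmptyElim f

/-- program for a relational atom -/
def evRel (R : ℕ) {m l : ℕ} (r : graphRel l)
    (ts : Fin l → Language.graph.Term (Empty ⊕ Fin m)) : Cmd (Nm R) Fl :=
  match l, r, ts with
  | _, .adj, ts => fetch (X R (tvar (ts 0))) (X R (tvar (ts 1)))

/-- program for a formula -/
def ev (R : ℕ) : {m : ℕ} → Language.graph.BoundedFormula Empty m → Cmd (Nm R) Fl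
  | _, .falsum => .load (fun v => ⟨false, v.c, v.d⟩)
  | _, .equal t₁ t₂ => eqt (X R (tvar t₁)) (X R (tvar t₂))
  | _, .rel r ts => evRel R r ts
  | _, .imp φ ψ => .seq (ev R φ) (.ite bF (ev R ψ) (.load (fun v => ⟨true, v.c, v.d⟩)))
  | m, .all φ => fa (X R m) (ev R φ)

/-- number of variables used -/
def ht : {m : ℕ} → Language.graph.BoundedFormula Empty m → ℕ
  | m, .falsum => m
  | m, .equal _ _ => m
  | m, .rel _ _ => m
  | _, .imp φ ψ => max (ht φ) (ht ψ)
  | _, .all φ => ht φ

theorem le_ht : ∀ {m : ℕ} (φ : Language.graph.BoundedFormula Empty m), m ≤ ht φ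
  | _, .falsum => le_rfl
  | _, .equal _ _ => le_rfl
  | _, .rel _ _ => le_rfl
  | _, .imp φ ψ => (le_ht φ).trans (le_max_left _ _)
  | _, .all φ => (Nat.le_succ _).trans (le_ht φ)

/-- the state of the stacks during model checking -/
structure Good {R : ℕ} (n : ℕ) (M : List Bool) (m : ℕ) (xs : Fin m → Fin n)
    (S : Nm R → List Bool) : Prop where
  hc : S cnt = List.replicate n true
  hm : S mat = M
  ha : S aux = []
  h1 : S t1 = []
  h3 : S t3 = []
  hx : ∀ i : Fin m, S (X R i) = List.replicate (xs i) true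
  he : ∀ i, m ≤ i → i < R → S (X R i) = []

theorem realize_tvar {m n : ℕ} (M : List Bool) (v : Empty → Fin n) (xs : Fin m → Fin n) :
    ∀ t : Language.graph.Term (Empty ⊕ Fin m),
      @Term.realize _ _ (stM n M) _ (Sum.elim v xs) t = xs (tvar t)
  | .var (.inl e) => e.elim
  | .var (.inr _) => rfl
  | .func f _ => isEmptyElim f

theorem X_ne {R i : ℕ} (h : i < R) {k : Nm R} (hk : ∀ j, k ≠ .var j) : X R i ≠ k := by
  rw [X_eq h]
  exact (hk _).symm

theorem ev_run {R : ℕ} {m : ℕ} (φ : Language.graph.BoundedFormula Empty m) (hR : ht φ ≤ R) :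
    ∃ p : Polynomial ℕ, ∀ (n : ℕ) (M : List Bool), M.length = n * n →
      ∀ (xs : Fin m → Fin n) (e : Empty → Fin n) (v : Fl) (S : Nm R → List Bool),
        Good n M m xs S → ∃ v', RunB (ev R φ) v S v' S (p.eval n) ∧
          (v'.b = true ↔ @BoundedFormula.Realize _ _ (stM n M) _ _ φ e xs) := by
  induction φ with
  | falsum =>
    refine ⟨1, ?_⟩
    intro n M hM xs e v S hS
    refine ⟨_, RunB.load.mono (by simp), ?_⟩
    simp [BoundedFormula.Realize]
  | @equal m t₁ t₂ =>
    refine ⟨40 * Polynomial.X + 20, ?_⟩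
    intro n M hM xs e v S hS
    have hlt : ∀ i : Fin m, (i : ℕ) < R := fun i => lt_of_lt_of_le i.2 hR
    obtain ⟨v', h1, h2⟩ := eqt_run (X_ne (hlt (tvar t₁)) (by simp))
      (X_ne (hlt (tvar t₁)) (by simp)) (X_ne (hlt (tvar t₂)) (by simp))
      (X_ne (hlt (tvar t₂)) (by simp)) v S (hS.hx (tvar t₁)) (hS.hx (tvar t₂)) hS.h1 hS.h3
    refine ⟨v', h1.mono ?_, ?_⟩
    · have e1 := (xs (tvar t₁)).2
      have e2 := (xs (tvar t₂)).2
      simp only [Polynomial.eval_add, Polynomial.eval_mul, Polynomial.eval_X,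
        Polynomial.eval_ofNat]
      omega
    · rw [h2]
      unfold BoundedFormula.Realize
      rw [realize_tvar, realize_tvar]
      simp [Fin.ext_iff]
  | @rel m l r ts =>
    refine ⟨14 * Polynomial.X * Polynomial.X + 40 * Polynomial.X + 20, ?_⟩
    intro n M hM xs e v S hS
    have hlt : ∀ i : Fin m, (i : ℕ) < R := fun i => lt_of_lt_of_le i.2 hR
    match l, r, ts with
    | _, .adj, ts =>
      obtain ⟨v', h1, h2⟩ := fetch_run (X_ne (hlt (tvar (ts 0))) (by simp))
        (X_ne (hlt (tvar (ts 0))) (by simp)) (X_ne (hlt (tvar (ts 0))) (by simp))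
        (X_ne (hlt (tvar (ts 0))) (by simp)) (X_ne (hlt (tvar (ts 0))) (by simp))
        (X_ne (hlt (tvar (ts 1))) (by simp)) (X_ne (hlt (tvar (ts 1))) (by simp))
        (X_ne (hlt (tvar (ts 1))) (by simp)) hM (xs (tvar (ts 0))).2 (xs (tvar (ts 1))).2
        v S (hS.hx (tvar (ts 0))) (hS.hx (tvar (ts 1))) hS.hc hS.h1 hS.h3 hS.hm hS.ha
      refine ⟨v', h1.mono ?_, ?_⟩
      · simp only [Polynomial.eval_add, Polynomial.eval_mul, Polynomial.eval_X,
          Polynomial.eval_ofNat]
        exact le_rfl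
      · rw [h2]
        unfold BoundedFormula.Realize
        simp only [realize_tvar]
        rfl
  | imp φ ψ ih1 ih2 =>
    obtain ⟨p, hp⟩ := ih1 ((le_max_left _ _).trans hR)
    obtain ⟨q, hq⟩ := ih2 ((le_max_right _ _).trans hR)
    refine ⟨p + q + 3, ?_⟩
    intro n M hM xs e v S hS
    obtain ⟨v', h1, h2⟩ := hp n M hM xs e v S hS
    by_cases hφ : @BoundedFormula.Realize _ _ (stM n M) _ _ φ e xs
    · obtain ⟨v'', h3, h4⟩ := hq n M hM xs e v' S hS
      refine ⟨v'', (RunB.seq h1 (RunB.ite_t (p := bF) (by simpa [bF] using h2.mpr hφ)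
        h3)).mono ?_, ?_⟩
      · simp only [Polynomial.eval_add, Polynomial.eval_ofNat]
        omega
      · rw [h4, @BoundedFormula.realize_imp _ _ (stM n M)]
        exact ⟨fun h _ => h, fun h => h hφ⟩
    · have hb : v'.b = false := by
        rw [← Bool.not_eq_true]
        exact fun hh => hφ (h2.mp hh)
      refine ⟨_, (RunB.seq h1 (RunB.ite_f (p := bF) (by simpa [bF] using hb)
        RunB.load)).mono ?_, ?_⟩
      · simp only [Polynomial.eval_add, Polynomial.eval_ofNat]
        omega
      · rw [@BoundedFormula.realize_imp _ _ (stM n M)]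
        simp [hφ]
  | @all m φ ih =>
    obtain ⟨p, hp⟩ := ih hR
    refine ⟨Polynomial.X * (p + 2 * Polynomial.X + 20) + 20, ?_⟩
    intro n M hM xs e v S hS
    have hmR : m < R := lt_of_lt_of_le (Nat.lt_of_succ_le (le_ht φ)) hR
    obtain ⟨v', h1, h2⟩ := fa_run (x := X R m) (E := ev R φ) (n := n) (tE := p.eval n)
      (P := fun y => ∃ hy : y < n, @BoundedFormula.Realize _ _ (stM n M) _ _ φ e
        (Fin.snoc xs ⟨y, hy⟩)) (X_ne hmR (by simp)) (X_ne hmR (by simp)) v S
      (hS.he m le_rfl hmR) hS.hc hS.h1 (by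
        intro y hy v₁ S₁ hx hoth
        have hG : Good n M (m + 1) (Fin.snoc xs (⟨y, hy⟩ : Fin n)) S₁ := by
          refine ⟨?_, ?_, ?_, ?_, ?_, ?_, ?_⟩
          · rw [hoth cnt (X_ne hmR (by simp)).symm, hS.hc]
          · rw [hoth mat (X_ne hmR (by simp)).symm, hS.hm]
          · rw [hoth aux (X_ne hmR (by simp)).symm, hS.ha]
          · rw [hoth t1 (X_ne hmR (by simp)).symm, hS.h1]
          · rw [hoth t3 (X_ne hmR (by simp)).symm, hS.h3]
          · intro i
            refine Fin.lastCases ?_ ?_ i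
            · simp only [Fin.val_last, Fin.snoc_last]
              exact hx
            · intro i
              simp only [Fin.val_castSucc, Fin.snoc_castSucc]
              rw [hoth, hS.hx i]
              intro hh
              have := X_inj (lt_trans i.2 hmR) hmR hh
              have := i.2
              omega
          · intro i hi hiR
            rw [hoth, hS.he i (by omega) hiR]
            intro hh
            have := X_inj hiR hmR hh
            omega
        obtain ⟨v₂, g1, g2⟩ := hp n M hM (Fin.snoc xs (⟨y, hy⟩ : Fin n)) e v₁ S₁ hG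
        refine ⟨v₂, g1, ?_⟩
        rw [g2]
        exact ⟨fun hh => ⟨hy, hh⟩, fun ⟨_, hh⟩ => hh⟩)
    refine ⟨v', h1.mono ?_, ?_⟩
    · simp only [Polynomial.eval_add, Polynomial.eval_mul, Polynomial.eval_X,
        Polynomial.eval_ofNat]
      exact le_rfl
    · rw [h2]
      conv_rhs => unfold BoundedFormula.Realize
      constructor
      · intro hh a
        obtain ⟨_, h3⟩ := hh a.1 a.2
        exact h3
      · intro hh y hy
        exact ⟨hy, hh ⟨y, hy⟩⟩

end Pool.Agent.H70.TM
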