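import Pool.Agent.H70.TM.ModelCheck

/-!
Decoding the input and computing the number of rows of a square matrix of bits.
-/

namespace Pool.Agent.H70.TM

open Function Nm

variable {R : ℕ}

/-- each input bit is delimited -/
def tri (x : List Bool) : List Bool := x.flatMap (fun b => [true, b, false])

theorem tri_cons (b : Bool) (x : List Bool) : tri (b :: x) = true :: b :: false :: tri x := rfl

theorem tri_length (x : List Bool) : (tri x).length = 3 * x.length := by
  induction x with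
  | nil => rfl
  | cons b x ih =>
    rw [tri_cons]
    simp only [List.length_cons, ih]
    omega

/-- decode the input onto `aux` (reversed) -/
def prA : Cmd (Nm R) Fl :=
  .seq (pp inp) (.wh cF (.seq (pp inp) (.seq (pu aux) (.seq (pp inp) (pp inp)))))

theorem prA_run (x : List Bool) (v : Fl) (S : Nm R → List Bool) (hS : S inp = tri x) :
    ∃ v' S', RunB prA v S v' S' (5 * x.length + 2) ∧ S' inp = [] ∧
      S' aux = x.reverse ++ S aux ∧ ∀ k', k' ≠ inp → k' ≠ aux → S' k' = S k' := by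
  have hloop : ∀ (x : List Bool) (b : Bool) (v : Fl) (S : Nm R → List Bool), v.c = true →
      S inp = b :: false :: tri x →
      ∃ v' S', RunB (.wh cF (.seq (pp inp) (.seq (pu aux) (.seq (pp inp) (pp inp))))) v S v' S'
        (5 * x.length + 6) ∧ S' inp = [] ∧
      S' aux = (b :: x).reverse ++ S aux ∧ ∀ k', k' ≠ inp → k' ≠ aux → S' k' = S k' := by
    intro x
    induction x with
    | nil =>
      intro b v S hc hS
      obtain ⟨S₁, h1, h2, h3⟩ := pp_cons (v := v) hS
      obtain ⟨S₂, g1, g2, g3⟩ := pu_run (k := (aux : Nm R)) (v := ⟨v.b, true, b⟩) (S := S₁)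
      obtain ⟨S₃, q1, q2, q3⟩ := pp_cons (k := (inp : Nm R)) (v := ⟨v.b, true, b⟩) (S := S₂)
        (x := false) (l := []) (by rw [g3 inp (by simp), h2]; rfl)
      obtain ⟨S₄, r1, r2, r3⟩ := pp_nil (k := (inp : Nm R)) (v := ⟨v.b, true, false⟩) (S := S₃) q2
      refine ⟨_, S₄, (RunB.wh_t (p := cF) hc (RunB.seq h1 (RunB.seq g1 (RunB.seq q1 r1)))
        (RunB.wh_f rfl)).mono (by simp), r2, ?_, ?_⟩
      · rw [r3 aux (by simp), q3 aux (by simp), g2, h3 aux (by simp)]
        rfl
      · intro k' a1 a2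
        rw [r3 k' a1, q3 k' a1, g3 k' a2, h3 k' a1]
    | cons b' x ih =>
      intro b v S hc hS
      obtain ⟨S₁, h1, h2, h3⟩ := pp_cons (v := v) hS
      obtain ⟨S₂, g1, g2, g3⟩ := pu_run (k := (aux : Nm R)) (v := ⟨v.b, true, b⟩) (S := S₁)
      obtain ⟨S₃, q1, q2, q3⟩ := pp_cons (k := (inp : Nm R)) (v := ⟨v.b, true, b⟩) (S := S₂)
        (x := false) (l := true :: b' :: false :: tri x) (by rw [g3 inp (by simp), h2]; rfl)
      obtain ⟨S₄, r1, r2, r3⟩ := pp_cons (k := (inp : Nm R)) (v := ⟨v.b, true, false⟩) (S := S₃) q2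
      obtain ⟨v₅, S₅, s1, s2, s3, s4⟩ := ih b' ⟨v.b, true, true⟩ S₄ rfl r2
      refine ⟨v₅, S₅, (RunB.wh_t (p := cF) hc (RunB.seq h1 (RunB.seq g1 (RunB.seq q1 r1)))
        s1).mono ?_, s2, ?_, ?_⟩
      · simp only [List.length_cons]
        omega
      · rw [s3, r3 aux (by simp), q3 aux (by simp), g2, h3 aux (by simp)]
        simp
      · intro k' a1 a2
        rw [s4 k' a1 a2, r3 k' a1, q3 k' a1, g3 k' a2, h3 k' a1]
  cases x with
  | nil =>
    obtain ⟨S₁, h1, h2, h3⟩ := pp_nil (v := v) hS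
    refine ⟨_, S₁, (RunB.seq h1 (RunB.wh_f rfl)).mono (by simp), h2, ?_, ?_⟩
    · rw [h3 aux (by simp)]
      rfl
    · intro k' a1 _
      exact h3 k' a1
  | cons b x =>
    rw [tri_cons] at hS
    obtain ⟨S₁, h1, h2, h3⟩ := pp_cons (v := v) hS
    obtain ⟨v₂, S₂, g1, g2, g3, g4⟩ := hloop x b ⟨v.b, true, true⟩ S₁ rfl h2
    refine ⟨v₂, S₂, (RunB.seq h1 g1).mono ?_, g2, ?_, ?_⟩
    · simp only [List.length_cons]
      omega
    · rw [g3, h3 aux (by simp)]
    · intro k' a1 a2
      rw [g4 k' a1 a2, h3 k' a1]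

/-- move a bit if there is one, otherwise record failure -/
def mv1 : Cmd (Nm R) Fl :=
  .seq (pp aux) (.ite cF (pu mat) (.load (fun v => ⟨false, v.c, v.d⟩)))

theorem mv1_run (y m₀ : List Bool) (b₀ : Bool) (k : ℕ) (v : Fl) (S : Nm R → List Bool)
    (ha : S aux = y.drop k) (hm : S mat = (y.take k).reverse ++ m₀)
    (hb : v.b = (b₀ && decide (k ≤ y.length))) :
    ∃ v' S', RunB mv1 v S v' S' 3 ∧ S' aux = y.drop (k + 1) ∧
      S' mat = (y.take (k + 1)).reverse ++ m₀ ∧ v'.b = (b₀ && decide (k + 1 ≤ y.length)) ∧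
      ∀ k', k' ≠ aux → k' ≠ mat → S' k' = S k' := by
  by_cases hk : k < y.length
  · rw [List.drop_eq_getElem_cons hk] at ha
    obtain ⟨S₁, h1, h2, h3⟩ := pp_cons (v := v) ha
    obtain ⟨S₂, g1, g2, g3⟩ := pu_run (k := (mat : Nm R)) (v := ⟨v.b, true, y[k]⟩) (S := S₁)
    refine ⟨_, S₂, (RunB.seq h1 (RunB.ite_t (p := cF) rfl g1)).mono (by omega), ?_, ?_, ?_, ?_⟩
    · rw [g3 aux (by simp), h2]
    · rw [g2, h3 mat (by simp), hm, List.take_succ_eq_append_getElem hk, List.reverse_append]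
      rfl
    · rw [hb]
      have e1 : k ≤ y.length := by omega
      have e2 : k + 1 ≤ y.length := by omega
      simp [e1, e2]
    · intro k' a1 a2
      rw [g3 k' a2, h3 k' a1]
  · have hd : y.drop k = [] := List.drop_eq_nil_of_le (by omega)
    rw [hd] at ha
    obtain ⟨S₁, h1, h2, h3⟩ := pp_nil (v := v) ha
    refine ⟨_, S₁, (RunB.seq h1 (RunB.ite_f (p := cF) rfl RunB.load)).mono (by omega),
      ?_, ?_, ?_, ?_⟩
    · rw [h2, List.drop_eq_nil_of_le (by omega)]
    · rw [h3 mat (by simp), hm, List.take_of_length_le (by omega),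
        List.take_of_length_le (by omega)]
    · have e2 : ¬ (k + 1 ≤ y.length) := by omega
      simp [e2]
    · intro k' a1 _
      exact h3 k' a1

/-- the main loop of the parser -/
def prL : Cmd (Nm R) Fl :=
  .wh cF (.seq (pu mat) (.seq (forc cnt t1 (.seq mv1 mv1)) (.seq (one cnt) (pp aux))))

theorem prL_run (B : ℕ) : ∀ (len : ℕ) (l : List Bool), l.length = len → ∀ (j : ℕ) (v : Fl)
    (S : Nm R → List Bool), j + l.length + 1 ≤ B → v.c = true → S aux = l →
      S cnt = List.replicate j true → S t1 = [] →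
      ∃ (v' : Fl) (S' : Nm R → List Bool) (J : ℕ),
        RunB prL v S v' S' ((l.length + 1) * (15 * B + 12) + 1) ∧ S' aux = [] ∧
        S' mat = (v.d :: l).reverse ++ S mat ∧ S' cnt = List.replicate J true ∧
        (∀ k', k' ≠ aux → k' ≠ mat → k' ≠ cnt → S' k' = S k') ∧
        J ≤ j + l.length + 1 ∧
        (v'.b = true ↔ v.b = true ∧ j * j + (l.length + 1) = J * J) ∧
        (∀ n, j * j + (l.length + 1) = n * n → n = J) := by
  intro len
  induction len using Nat.strong_induction_on with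
  | _ len ih =>
    intro l hl j v S hB hc ha hcnt ht1
    obtain ⟨S₁, h1, h2, h3⟩ := pu_run (k := (mat : Nm R)) (v := v) (S := S)
    obtain ⟨v₂, S₂, g1, ⟨g2, g3, g4, g5⟩, g6, g7⟩ := forc_run (k := (cnt : Nm R)) (tmp := t1)
      (by simp) (B := .seq mv1 mv1) (n := j) (t := 6)
      (fun i b S' => S' aux = l.drop (2 * i) ∧ S' mat = (l.take (2 * i)).reverse ++
        (v.d :: S mat) ∧ b = (v.b && decide (2 * i ≤ l.length)) ∧
        ∀ k', k' ≠ aux → k' ≠ mat → k' ≠ cnt → k' ≠ t1 → S' k' = S k')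
      (by
        rintro i b S₁ S₂ ⟨a1, a2, a3, a4⟩ a5
        refine ⟨?_, ?_, a3, ?_⟩
        · rw [a5 aux (by simp) (by simp), a1]
        · rw [a5 mat (by simp) (by simp), a2]
        · intro k' e1 e2 e3 e4
          rw [a5 k' e3 e4, a4 k' e1 e2 e3 e4])
      (by
        rintro i hi v₁ S₁ ⟨a1, a2, a3, a4⟩
        obtain ⟨v₂, S₂, b1, b2, b3, b4, b5⟩ := mv1_run l (v.d :: S mat) v.b (2 * i) v₁ S₁
          a1 a2 a3
        obtain ⟨v₃, S₃, c1, c2, c3, c4, c5⟩ := mv1_run l (v.d :: S mat) v.b (2 * i + 1) v₂ S₂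
          b2 b3 b4
        refine ⟨v₃, S₃, (RunB.seq b1 c1).mono (by omega), ⟨c2, c3, c4, ?_⟩, ?_, ?_⟩
        · intro k' e1 e2 e3 e4
          rw [c5 k' e1 e2, b5 k' e1 e2, a4 k' e1 e2 e3 e4]
        · rw [c5 cnt (by simp) (by simp), b5 cnt (by simp) (by simp)]
        · rw [c5 t1 (by simp) (by simp), b5 t1 (by simp) (by simp)])
      v S₁ (by rw [h3 cnt (by simp), hcnt]) (by rw [h3 t1 (by simp), ht1])
      ⟨by rw [h3 aux (by simp), ha]; simp, by rw [h2]; simp, by simp,
        fun k' _ e2 _ _ => h3 k' e2⟩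
    obtain ⟨S₃, q1, q2, q3⟩ := one_run (k := (cnt : Nm R)) (v := v₂) (S := S₂)
    have hcnt3 : S₃ cnt = List.replicate (j + 1) true := by
      rw [q2, g6, ← List.replicate_succ]
    have hjB : j * (6 + 8) + 5 + (1 + (1 + 1)) + 2 ≤ 15 * B + 10 := by omega
    by_cases hlen : l.length ≤ 2 * j
    · have haux : S₃ aux = [] := by
        rw [q3 aux (by simp), g2, List.drop_eq_nil_of_le hlen]
      obtain ⟨S₄, r1, r2, r3⟩ := pp_nil (v := v₂) haux
      refine ⟨_, S₄, j + 1, (RunB.wh_t (p := cF) hc (RunB.seq h1 (RunB.seq g1 (RunB.seq q1 r1)))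
        (RunB.wh_f rfl)).mono ?_, r2, ?_, ?_, ?_, ?_, ?_, ?_⟩
      · have : (l.length + 1) * (15 * B + 12) ≥ 1 * (15 * B + 12) :=
          Nat.mul_le_mul_right _ (by omega)
        omega
      · rw [r3 mat (by simp), q3 mat (by simp), g3, List.take_of_length_le hlen]
        simp
      · rw [r3 cnt (by simp), hcnt3]
      · intro k' e1 e2 e3
        by_cases e4 : k' = t1
        · rw [e4, r3 t1 (by simp), q3 t1 (by simp), g7, ht1]
        · rw [r3 k' e1, q3 k' e3, g5 k' e1 e2 e3 e4]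
      · omega
      · rw [g4]
        have e : (j + 1) * (j + 1) = j * j + 2 * j + 1 := by ring
        rw [e]
        simp only [Bool.and_eq_true, decide_eq_true_eq]
        constructor
        · rintro ⟨e1, e2⟩
          exact ⟨e1, by omega⟩
        · rintro ⟨e1, e2⟩
          exact ⟨e1, by omega⟩
      · intro n hn
        have e : (j + 1) * (j + 1) = j * j + 2 * j + 1 := by ring
        have e1 : j * j < n * n := by omega
        have e2 : n * n ≤ (j + 1) * (j + 1) := by omega
        have e3 : j < n := Nat.mul_self_lt_mul_self_iff.mp e1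
        have e4 : n ≤ j + 1 := Nat.mul_self_le_mul_self_iff.mp e2
        omega
    · have hlt : 2 * j < l.length := by omega
      have haux : S₃ aux = l[2 * j] :: l.drop (2 * j + 1) := by
        rw [q3 aux (by simp), g2, List.drop_eq_getElem_cons hlt]
      obtain ⟨S₄, r1, r2, r3⟩ := pp_cons (v := v₂) haux
      have hlen' : (l.drop (2 * j + 1)).length = l.length - (2 * j + 1) := List.length_drop
      obtain ⟨v₅, S₅, J, s1, s2, s3, s4, s5, s6, s7, s8⟩ := ih (l.drop (2 * j + 1)).length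
        (by omega) (l.drop (2 * j + 1)) rfl (j + 1) ⟨v₂.b, true, l[2 * j]⟩ S₄ (by omega) rfl r2
        (by rw [r3 cnt (by simp), hcnt3]) (by rw [r3 t1 (by simp), q3 t1 (by simp), g7])
      refine ⟨v₅, S₅, J, (RunB.wh_t (p := cF) hc (RunB.seq h1 (RunB.seq g1
        (RunB.seq q1 r1))) s1).mono ?_, s2, ?_, s4, ?_, ?_, ?_, ?_⟩
      · have e1 : ((l.drop (2 * j + 1)).length + 1) * (15 * B + 12) ≤
            l.length * (15 * B + 12) := Nat.mul_le_mul_right _ (by omega)
        have e2 : (l.length + 1) * (15 * B + 12) = l.length * (15 * B + 12) + (15 * B + 12) := by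
          ring
        rw [e2]
        omega
      · rw [s3, r3 mat (by simp), q3 mat (by simp), g3, ← List.drop_eq_getElem_cons hlt,
          ← List.append_assoc, ← List.reverse_append, List.take_append_drop]
        simp
      · intro k' e1 e2 e3
        rw [s5 k' e1 e2 e3, r3 k' e1, q3 k' e3]
        by_cases e4 : k' = t1
        · rw [e4, g7, ht1]
        · rw [g5 k' e1 e2 e3 e4]
      · omega
      · rw [s7, g4]
        have e : (j + 1) * (j + 1) = j * j + 2 * j + 1 := by ring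
        rw [e]
        have e3 : 2 * j ≤ l.length := by omega
        simp only [Bool.and_eq_true, decide_eq_true_eq]
        constructor
        · rintro ⟨⟨e1, _⟩, e2⟩
          exact ⟨e1, by omega⟩
        · rintro ⟨e1, e2⟩
          exact ⟨⟨e1, e3⟩, by omega⟩
      · intro n hn
        refine s8 n ?_
        have e : (j + 1) * (j + 1) = j * j + 2 * j + 1 := by ring
        omega

/-- the parser -/
def prB : Cmd (Nm R) Fl :=
  .seq (.load (fun v => ⟨true, v.c, v.d⟩)) (.seq (pp aux) prL)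

theorem prB_run (y : List Bool) (v : Fl) (S : Nm R → List Bool) (ha : S aux = y)
    (hm : S mat = []) (hc : S cnt = []) (h1 : S t1 = []) :
    ∃ (v' : Fl) (S' : Nm R → List Bool) (J : ℕ),
      RunB prB v S v' S' ((y.length + 1) * (15 * (y.length + 1) + 12) + 3) ∧ S' aux = [] ∧
      S' mat = y.reverse ∧ S' cnt = List.replicate J true ∧
      (∀ k', k' ≠ aux → k' ≠ mat → k' ≠ cnt → S' k' = S k') ∧
      J ≤ y.length ∧ (v'.b = true ↔ y.length = J * J) ∧ (∀ n, y.length = n * n → n = J) := by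
  have h0 : RunB (K := Nm R) (.load (fun v : Fl => ⟨true, v.c, v.d⟩)) v S ⟨true, v.c, v.d⟩ S 1 :=
    RunB.load
  cases y with
  | nil =>
    obtain ⟨S₁, g1, g2, g3⟩ := pp_nil (v := ⟨true, v.c, v.d⟩) ha
    refine ⟨_, S₁, 0, (RunB.seq h0 (RunB.seq g1 (RunB.wh_f rfl))).mono ?_, g2, ?_, ?_, ?_, ?_,
      ?_, ?_⟩
    · simp
    · rw [g3 mat (by simp), hm]
      rfl
    · rw [g3 cnt (by simp), hc]
      rfl
    · intro k' e1 _ _
      exact g3 k' e1
    · simp
    · simp
    · intro n hn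
      simp only [List.length_nil] at hn
      exact mul_self_eq_zero.mp hn.symm
  | cons a l =>
    obtain ⟨S₁, g1, g2, g3⟩ := pp_cons (v := ⟨true, v.c, v.d⟩) ha
    obtain ⟨v₂, S₂, J, q1, q2, q3, q4, q5, q6, q7, q8⟩ := prL_run (l.length + 1) l.length l rfl 0
      ⟨true, true, a⟩ S₁ (by omega) rfl g2 (by rw [g3 cnt (by simp), hc]; rfl)
      (by rw [g3 t1 (by simp), h1])
    refine ⟨v₂, S₂, J, (RunB.seq h0 (RunB.seq g1 q1)).mono ?_, q2, ?_, q4, ?_, ?_, ?_, ?_⟩
    · simp only [List.length_cons]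
      have e1 : (l.length + 1) * (15 * (l.length + 1) + 12) ≤
          (l.length + 1 + 1) * (15 * (l.length + 1 + 1) + 12) :=
        Nat.mul_le_mul (by omega) (by omega)
      omega
    · rw [q3, g3 mat (by simp), hm]
      simp
    · intro k' e1 e2 e3
      rw [q5 k' e1 e2 e3, g3 k' e1]
    · simpa using q6
    · rw [q7]
      simp
    · intro n hn
      refine q8 n ?_
      rw [← hn]
      simp

end Pool.Agent.H70.TM
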